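import Pool.Agent.K3h48.HM.Stm

/-! HM brick REP: the supports are given by converging sequences (helper37). -/

set_option autoImplicit false

open Filter Topology MeasureTheory

namespace Pool.Agent.K3h37.HM

open Pool.Agent.K3h48.HM

theorem coeff_sum_single {G I : Type} [Fintype I] [DecidableEq G] (y : I → G) (c : I → ℝ)
    (g : G) : (∑ i, MonoidAlgebra.single (y i) (c i)).coeff g = ∑ i, if y i = g then c i else 0 := by
  rw [MonoidAlgebra.coeff_sum, Finsupp.finsetSum_apply]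
  refine Finset.sum_congr rfl fun i _ => ?_
  rw [MonoidAlgebra.coeff_single, Finsupp.single_apply]

theorem t_REP : S_REP := by
  classical
  intro G _ _ _ _ Γn W hW hWn μn μ hp hs hH hμ
  -- the neighbourhood
  have h0 : Tendsto (fun p : G × G => p.1⁻¹ * p.2) (𝓝 ((1 : G), (1 : G))) (𝓝 1) := by
    have h : Continuous fun p : G × G => p.1⁻¹ * p.2 := by fun_prop
    have h' := h.tendsto ((1 : G), (1 : G))
    simpa using h'
  obtain ⟨V, hVo, hV1, hV⟩ : ∃ V : Set G, IsOpen V ∧ (1 : G) ∈ V ∧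
      ∀ a ∈ V, ∀ b ∈ V, a⁻¹ * b ∈ W := by
    have h1 := h0 hW
    rw [mem_map, nhds_prod_eq, mem_prod_iff] at h1
    obtain ⟨t₁, ht₁, t₂, ht₂, hsub⟩ := h1
    refine ⟨interior (t₁ ∩ t₂), isOpen_interior, mem_interior_iff_mem_nhds.2
      (Filter.inter_mem ht₁ ht₂), fun a ha b hb => ?_⟩
    have ha' := interior_subset ha
    have hb' := interior_subset hb
    exact hsub (Set.mk_mem_prod ha'.1 hb'.2)
  let U : μ.coeff.support → Set G := fun i => {g | (i : G)⁻¹ * g ∈ V}
  have hUo : ∀ i, IsOpen (U i) := fun i =>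
    hVo.preimage (continuous_const.mul continuous_id)
  have hUi : ∀ i : μ.coeff.support, (i : G) ∈ U i := fun i => by
    change (i : G)⁻¹ * (i : G) ∈ V
    rwa [inv_mul_cancel]
  have huniq : ∀ᶠ n in atTop, ∀ (i : μ.coeff.support), ∀ a ∈ (μn n).coeff.support,
      ∀ b ∈ (μn n).coeff.support, a ∈ U i → b ∈ U i → a = b := by
    filter_upwards [hWn] with n hn i a ha b hb hai hbi
    have h1 : ((i : G)⁻¹ * a)⁻¹ * ((i : G)⁻¹ * b) ∈ W := hV _ hai _ hbi
    have h2 : ((i : G)⁻¹ * a)⁻¹ * ((i : G)⁻¹ * b) = a⁻¹ * b := by group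
    rw [h2] at h1
    have h3 := hn _ ((Γn n).mul_mem ((Γn n).inv_mem (hs n ha)) (hs n hb)) h1
    exact inv_mul_eq_one.1 h3
  have hne : ∀ n, (μn n).coeff.support.Nonempty := by
    intro n
    by_contra h
    rw [Finset.not_nonempty_iff_eq_empty] at h
    have h1 := (hp n).2
    rw [h, Finset.sum_empty] at h1
    exact zero_ne_one h1
  have hx : ∀ (n : ℕ) (i : μ.coeff.support), ∃ a ∈ (μn n).coeff.support,
      (∃ b ∈ (μn n).coeff.support, b ∈ U i) → a ∈ U i := by
    intro n i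
    by_cases h : ∃ b ∈ (μn n).coeff.support, b ∈ U i
    · obtain ⟨b, hb, hbi⟩ := h
      exact ⟨b, hb, fun _ => hbi⟩
    · obtain ⟨a, ha⟩ := hne n
      exact ⟨a, ha, fun h' => absurd h' h⟩
  choose x hx1 hx2 using hx
  have hlim : ∀ i : μ.coeff.support, Tendsto (fun n => x n i) atTop (𝓝 (i : G)) := by
    intro i
    rw [tendsto_nhds]
    intro O hO hiO
    have h1 := hH.2 (O ∩ U i) (hO.inter (hUo i)) ⟨i, ⟨hiO, hUi i⟩, i.2⟩
    filter_upwards [h1, huniq] with n hn hu
    obtain ⟨b, ⟨hbO, hbU⟩, hb⟩ := hn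
    have hb' : b ∈ (μn n).coeff.support := hb
    have h2 := hu i (x n i) (hx1 n i) b hb' (hx2 n i ⟨b, hb', hbU⟩) hbU
    change x n i ∈ O
    rw [h2]
    exact hbO
  refine ⟨x, hlim, fun i => hμ _ _ (fun n => hx1 n i) i.2 (hlim i),
    Eventually.of_forall fun n i => hs n (hx1 n i), ?_⟩
  -- the measure
  have hinj : ∀ᶠ n in atTop, Function.Injective (x n) := by
    have h1 : ∀ᶠ n in atTop, ∀ p : μ.coeff.support × μ.coeff.support, p.1 ≠ p.2 →
        x n p.1 ≠ x n p.2 := by
      rw [eventually_all]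
      rintro ⟨i, j⟩
      by_cases hij : i = j
      · exact Eventually.of_forall fun n h => absurd hij h
      · have hij' : (i : G) ≠ (j : G) := fun h => hij (Subtype.ext h)
        obtain ⟨O, O', hO, hO', hi, hj, hd⟩ := t2_separation hij'
        filter_upwards [(hlim i).eventually_mem (hO.mem_nhds hi),
          (hlim j).eventually_mem (hO'.mem_nhds hj)] with n h2 h3 _ h4
        refine Set.disjoint_left.1 hd h2 ?_
        rw [h4]
        exact h3
    filter_upwards [h1] with n hn i j hij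
    by_contra h
    exact hn (i, j) h hij
  have hcov : ∀ᶠ n in atTop, ((μn n).coeff.support : Set G) ⊆ ⋃ i, U i := by
    refine hH.1 _ (isOpen_iUnion hUo) fun g hg => ?_
    exact Set.mem_iUnion.2 ⟨⟨g, hg⟩, hUi ⟨g, hg⟩⟩
  filter_upwards [hinj, hcov, huniq] with n h1 h2 h3
  have hsurj : ∀ g ∈ (μn n).coeff.support, ∃ i, x n i = g := by
    intro g hg
    obtain ⟨i, hi⟩ := Set.mem_iUnion.1 (h2 hg)
    exact ⟨i, h3 i _ (hx1 n i) g hg (hx2 n i ⟨g, hg, hi⟩) hi⟩
  ext g
  rw [coeff_sum_single]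
  by_cases hg : g ∈ (μn n).coeff.support
  · obtain ⟨i, rfl⟩ := hsurj g hg
    rw [Finset.sum_eq_single i]
    · rw [if_pos rfl]
    · intro j _ hj
      rw [if_neg fun h => hj (h1 h)]
    · intro h
      exact absurd (Finset.mem_univ _) h
  · rw [Finset.sum_eq_zero]
    · exact Finsupp.notMem_support_iff.1 hg
    · intro i _
      rw [if_neg]
      intro h
      exact hg (h ▸ hx1 n i)

end Pool.Agent.K3h37.HM
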